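import Pool.Agent.Q286.XG.Stm

set_option autoImplicit false

/-! # Project EXG (helper286), job Val: the smallest value is close to the multiplicity of the central zero (helper235) -/

open Polynomial Filter Topology Finset MeasureTheory
open Pool.Agent.Q240 Pool.Agent.Q240.CD Pool.Agent.Q240.CG
open Pool.Agent.Q240.EX (Big)
open Pool.Agent.Q286.XG

namespace Pool.Agent.Q235.XG

/-- definiteness of the point masses (the block `hdef` in the proof of `CG.resG`) -/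
lemma defG [D : Y23.G.ZD] [Y23.G.ZC] (hRH : ∀ ρ : Y23.G.Zt, (ρ : ℂ).re = 1 / 2) {γ : ℕ → ℝ} (h : ENG γ) (n : ℝ → ℕ) {a : ℝ} (ha : 0 < a)
    (q : ℝ[X]) (hq : q.natDegree ≤ n a) (hq0 : q ≠ 0) :
    0 < Lam (fun j => γ j ^ 2) (fun j => 2 * (mg (γ j : ℂ) : ℝ) * Sr a (n a) (Real.sqrt (γ j ^ 2)) ^ 2) (q * q) := by
  classical
  have hSum := CG.jb.sum
  have hγ := h.gpos
  have hm1' : ∀ j, (1 : ℝ) ≤ (mg (γ j : ℂ) : ℝ) := fun j => by exact_mod_cast h.m1 j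
  have hsqrt : ∀ j, Real.sqrt (γ j ^ 2) = γ j := fun j => Real.sqrt_sq (hγ j).le
  by_contra hcon
  push Not at hcon
  have hd : (q.comp (X ^ 2)).natDegree ≤ 2 * n a := by
    rw [natDegree_comp, natDegree_X_pow]
    omega
  obtain ⟨f, hf, h1, -, h2⟩ := real_elemG a_repInv CG.jb.form ha (q.comp (X ^ 2)) hd
  set F : ℂ → ℝ := fun z => (aeval z (q.comp (X ^ 2) * q.comp (X ^ 2)) * Sp a (n a) z ^ 2).re with hF
  have ht := h.tot F (hSum.2.2.2 a (n a) _ ha (natDegree_mul_self_le hd))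
  have hFr : ∀ x : ℝ, F x = (q.eval (x ^ 2)) ^ 2 * Sr a (n a) x ^ 2 := by
    intro x
    simp only [hF]
    rw [aeval_real, (a_spB a (n a)).2.2.2.1, ← Complex.ofReal_pow, ← Complex.ofReal_mul, Complex.ofReal_re]
    simp only [eval_mul, eval_comp, eval_pow, eval_X]
    ring
  have hFn : ∀ j, F (-(γ j : ℂ)) = F (γ j) := by
    intro j
    have e2 : (-(γ j : ℂ)) = ((-γ j : ℝ) : ℂ) := by push_cast; rfl
    have e3 : Sr a (n a) (-γ j) ^ 2 = Sr a (n a) (γ j) ^ 2 := by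
      have h3 := (a_spB a (n a)).2.2.2.2.1 (γ j : ℂ)
      rw [e2, (a_spB a (n a)).2.2.2.1, (a_spB a (n a)).2.2.2.1] at h3
      have h4 : Sr a (n a) (-γ j) = Sr a (n a) (γ j) := by exact_mod_cast h3
      rw [h4]
    rw [e2, hFr, hFr, neg_sq, e3]
  have hterm : (fun j => (mg (γ j : ℂ) : ℝ) * (F (γ j) + F (-(γ j : ℂ)))) = fun j =>
      2 * (mg (γ j : ℂ) : ℝ) * Sr a (n a) (Real.sqrt (γ j ^ 2)) ^ 2 * (q * q).eval (γ j ^ 2) := by
    funext j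
    rw [hFn, hFr, hsqrt, eval_mul]
    ring
  rw [hterm] at ht
  have hnn : ∀ j, 0 ≤ 2 * (mg (γ j : ℂ) : ℝ) * Sr a (n a) (Real.sqrt (γ j ^ 2)) ^ 2 * (q * q).eval (γ j ^ 2) := by
    intro j
    rw [eval_mul]
    exact mul_nonneg (by positivity) (mul_self_nonneg _)
  have h0 : ∀ j, 2 * (mg (γ j : ℂ) : ℝ) * Sr a (n a) (Real.sqrt (γ j ^ 2)) ^ 2 * (q * q).eval (γ j ^ 2) = 0 := by
    have h3 : HasSum (fun j => 2 * (mg (γ j : ℂ) : ℝ) * Sr a (n a) (Real.sqrt (γ j ^ 2)) ^ 2 * (q * q).eval (γ j ^ 2)) 0 := by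
      have h4 := ht.summable.hasSum
      have h5 : ∑' j, 2 * (mg (γ j : ℂ) : ℝ) * Sr a (n a) (Real.sqrt (γ j ^ 2)) ^ 2 * (q * q).eval (γ j ^ 2) = 0 :=
        le_antisymm hcon (tsum_nonneg hnn)
      rwa [h5] at h4
    exact fun j => congrFun ((hasSum_zero_iff_of_nonneg hnn).1 h3) j
  have hz : ∀ j, q.eval (γ j ^ 2) * Sr a (n a) (γ j) = 0 := by
    intro j
    have h3 := h0 j
    rw [hsqrt, eval_mul] at h3
    have h4 : 0 < (mg (γ j : ℂ) : ℝ) := by linarith [hm1' j]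
    have h5 : (q.eval (γ j ^ 2) * Sr a (n a) (γ j)) ^ 2 = 0 := by
      have h6 : 2 * (mg (γ j : ℂ) : ℝ) * (q.eval (γ j ^ 2) * Sr a (n a) (γ j)) ^ 2 = 0 := by
        rw [← h3]
        ring
      exact (mul_eq_zero.1 h6).resolve_left (by positivity)
    exact pow_eq_zero_iff two_ne_zero |>.1 h5
  have hTz : ∀ w, Y23.TT f w = 0 := by
    refine unique_set CG.jb.pos hRH ha hf fun s hs hs2 => ?_
    have e : (1 / 2 + Complex.I * (-Complex.I * (s - 1 / 2)) : ℂ) = s := by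
      rw [← mul_assoc, mul_neg, Complex.I_mul_I]
      ring
    have e2 : Complex.I * (-Complex.I * (s - 1 / 2)) = s - 1 / 2 := by
      rw [← mul_assoc, mul_neg, Complex.I_mul_I]
      ring
    have h3 := (h.zer (-Complex.I * (s - 1 / 2))).1 (by rw [e]; exact hs)
    have h4 : ∀ j, Y23.TT f (Complex.I * (γ j : ℂ)) = 0 ∧ Y23.TT f (Complex.I * -(γ j : ℂ)) = 0 := by
      intro j
      have h5 := hz j
      have e3 : (-(γ j : ℂ)) = ((-γ j : ℝ) : ℂ) := by push_cast; rfl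
      constructor
      · rw [h2, aeval_real, (a_spB a (n a)).2.2.2.1, ← Complex.ofReal_mul]
        simp only [eval_comp, eval_pow, eval_X]
        rw [h5, Complex.ofReal_zero]
      · rw [h2, (a_spB a (n a)).2.2.2.2.1, e3, aeval_real, (a_spB a (n a)).2.2.2.1, ← Complex.ofReal_mul]
        simp only [eval_comp, eval_pow, eval_X, neg_sq]
        rw [h5, Complex.ofReal_zero]
    rcases h3 with ⟨h3, -⟩ | ⟨j, h3 | h3⟩
    · exfalso
      rw [h3] at e2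
      apply hs2
      rw [mul_zero] at e2
      linear_combination -e2
    · rw [← e2, h3]; exact (h4 j).1
    · rw [← e2, h3]; exact (h4 j).2
  exact hq0 (even_zero ha hTz h2)

theorem val : S_ValG := by
  intro D _ _ hRH c
  classical
  obtain ⟨γ, k1, k2, k3, k4, k5, k6⟩ := CG.jb.enum hRH
  have h : ENG γ := ⟨k1, k2, k3, k4, k5, k6⟩
  have hγ := h.gpos
  obtain ⟨κ, hκ⟩ : ∃ κ : ℝ, κ = |c| / 4 + 1 := ⟨_, rfl⟩
  have hκ0 : 0 < κ := by rw [hκ]; positivity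
  have hcκ : c < 4 * κ := by rw [hκ]; linarith [le_abs_self c]
  obtain ⟨n, hn'⟩ : ∃ n : ℝ → ℕ, n = fun a : ℝ => ⌈κ * a ^ 2⌉₊ := ⟨_, rfl⟩
  have hn : Tendsto (fun a : ℝ => (n a : ℝ) / a ^ 2) atTop (𝓝 κ) := by rw [hn']; exact ceil_sq κ hκ0
  have hgm : StrictMono (fun j => γ j ^ 2) := fun i j hij => pow_lt_pow_left₀ (h.mono hij) (hγ i).le two_ne_zero
  have hg0 : 0 < (fun j => γ j ^ 2) 0 := pow_pos (hγ 0) 2
  have hm1' : ∀ j, (1 : ℝ) ≤ (mg (γ j : ℂ) : ℝ) := fun j => by exact_mod_cast h.m1 j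
  have hdef : ∀ᶠ a in atTop, ∀ q : ℝ[X], q.natDegree ≤ n a → q ≠ 0 →
      0 < Lam (fun j => γ j ^ 2) (fun j => 2 * (mg (γ j : ℂ) : ℝ) * Sr a (n a) (Real.sqrt ((fun j => γ j ^ 2) j)) ^ 2) (q * q) := by
    filter_upwards [eventually_gt_atTop 0] with a ha q hq hq0
    exact defG hRH h n ha q hq hq0
  have hFm := a_famZ (fun j => γ j ^ 2) (fun j => (mg (γ j : ℂ) : ℝ)) hgm hg0 hm1' h.sum n κ hκ0 hn hdef
  obtain ⟨c0, hc0, hcnt⟩ := CG.jb.cnt (D := D) γ h.mono h.pos fun j => (h.zer _).2 (Or.inr ⟨j, Or.inl rfl⟩)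
  have hR := CG.jb.rate0 γ (fun j => (mg (γ j : ℂ) : ℝ)) h.mono h.pos hm1' h.sum ⟨c0, hc0, hcnt⟩ n κ c hκ0 hcκ hn
  have hmain : ∀ᶠ a : ℝ in atTop, ∃ f : ℝ → ℂ, Y23.G.F.Hn a (n a : ℕ∞) f ∧ Y23.TT f 0 = 1 ∧
      Y23.G.QQ f ≤ (m0 : ℝ) + Real.exp (-(c * a ^ 2 * Real.log a)) := by
    filter_upwards [hR, hFm.pm, eventually_gt_atTop 0] with a h1 h2 ha
    obtain ⟨q0, hq0⟩ := a_ext (fun j => γ j ^ 2) _ (n a) h2 0
    have h3 := h1 q0 h2 hq0
    have hd : (q0.comp (X ^ 2)).natDegree ≤ 2 * n a := by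
      rw [natDegree_comp, natDegree_X_pow]
      have := hq0.1
      omega
    obtain ⟨f, hf, e1, -, e2⟩ := real_elemG a_repInv CG.jb.form ha (q0.comp (X ^ 2)) hd
    have hev : (q0.comp (X ^ 2)).eval 0 = 1 := by
      simp only [eval_comp, eval_pow, eval_X]
      rw [zero_pow two_ne_zero]
      exact hq0.2.1
    refine ⟨f, hf, ?_, ?_⟩
    · have h4 := e2 0
      have h5 := aeval_real (q0.comp (X ^ 2)) 0
      rw [Complex.ofReal_zero, hev, Complex.ofReal_one] at h5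
      rw [mul_zero] at h4
      rw [h4, h5, (a_spB a (n a)).2.2.1, one_mul]
    · rw [e1, LG_Lp0 CG.jb.sum h n ha _ hd]
      unfold Lp0
      rw [hev, one_pow, mul_one, Lp_even _ _ (fun j => sq_nonneg _)]
      have h6 : Lam (fun j => γ j ^ 2) (MG γ n a) (q0 * q0) ≤ Real.exp (-(c * a ^ 2 * Real.log a)) := h3
      linarith
  obtain ⟨A, hA⟩ := eventually_atTop.1 hmain
  refine ⟨κ, A, hκ0, fun a ν hAa hB f hf => ?_⟩
  obtain ⟨f0, h1, h2, h3⟩ := hA a hAa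
  refine le_trans (hf.2.2 f0 ?_ h2) h3
  have hle : ((n a : ℕ) : ℕ∞) ≤ ν := by rw [hn']; exact hB
  exact ⟨h1.1, h1.2.1, fun k hk => h1.2.2 k (lt_of_le_of_lt hle hk)⟩

end Pool.Agent.Q235.XG
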